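import Pool.Agent.W670.ML.Defs

set_option autoImplicit false

namespace Pool.Agent.W878.ML

open Pool.Agent.W670.ML NumberField

theorem ALL_of : S_ALL := by
  intro h K _ _ n G hn hG m hm ε hε
  obtain ⟨c, hc, H⟩ := h (Module.finrank ℚ K) n G hn hG m hm ε hε
  have hD : (0 : ℝ) ≤ (((discr K).natAbs : ℝ) ^ n) := by positivity
  refine ⟨c * (((discr K).natAbs : ℝ) ^ n) ^ ((1 : ℝ) / (m : ℝ) + ε) + 1, ?_, 1, ?_⟩
  · have := Real.rpow_nonneg hD ((1 : ℝ) / (m : ℝ) + ε)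
    positivity
  intro X hX
  have hX0 : 0 < X := by linarith
  have h1 := H K rfl X hX0
  rw [Real.mul_rpow hD hX0.le] at h1
  have h2 : 0 < X ^ ((1 : ℝ) / (m : ℝ) + ε) := Real.rpow_pos_of_pos hX0 _
  calc (N K n G X : ℝ) ≤ _ := h1
    _ = c * (((discr K).natAbs : ℝ) ^ n) ^ ((1 : ℝ) / (m : ℝ) + ε) *
        X ^ ((1 : ℝ) / (m : ℝ) + ε) := by ring
    _ < _ := by nlinarith

end Pool.Agent.W878.ML
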